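import Pool.Agent.helper26.CK.LayerEx

/-!
# MP_7b0956_an: polyhedral and C¹ norms on C(K) for layered compact spaces

A compact Hausdorff space `K` is *layered* (`Layered`) if it is covered by the members of countably
many families of continuous images of compact linearly ordered spaces, the `n`-th family being
locally finite at the points outside of a closed set `B n`, such that every point of `K` belongs,
for some `n`, to a member of the `n`-th family but not to `B n`.  The class contains all sigma-discrete
compact spaces, all countable unions of continuous images of compact ordered spaces (e.g. all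
ordinals, and, by a theorem of M. E. Rudin, all compact monotonically normal spaces), and it is
closed under continuous images and closed subspaces.

Let `K` be layered and let `Z` be any nonempty compact Hausdorff space.  Then `C(K × Z)` has an
equivalent polyhedral norm iff `K` is scattered and `C(Z)` has one, and the same for `C¹` norms.  In
particular, for all layered `K`: `C(K)` has an equivalent polyhedral norm iff it has an equivalent
`C¹` norm iff `K` is scattered.
-/

set_option autoImplicit false

namespace Pool.Agent.Results.MP_7b0956_an.LayeredCompacta

open Pool.Agent.helper26.CK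

theorem result :
    (∀ (K Z : Type) [TopologicalSpace K] [CompactSpace K] [T2Space K] [Nonempty K]
        [TopologicalSpace Z] [CompactSpace Z] [T2Space Z] [Nonempty Z], Layered K →
      (HasPoly C(K × Z, ℝ) ↔ Scattered K ∧ HasPoly C(Z, ℝ)) ∧
        (HasC1 C(K × Z, ℝ) ↔ Scattered K ∧ HasC1 C(Z, ℝ)) ∧
        (HasPoly C(K, ℝ) ↔ Scattered K) ∧ (HasC1 C(K, ℝ) ↔ Scattered K)) ∧
      (∀ (K : Type) [TopologicalSpace K] [CompactSpace K] [T2Space K],
        SigmaDiscrete K ∨ OrdImages K → Layered K) ∧
      (∀ (K K' : Type) [TopologicalSpace K] [CompactSpace K] [T2Space K] [TopologicalSpace K']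
        [T2Space K'] (π : K → K'), Layered K → Continuous π → Function.Surjective π →
          Layered K') ∧
      ∀ (K : Type) [TopologicalSpace K] [CompactSpace K] [T2Space K] (F : Set K), Layered K →
        IsClosed F → Layered F :=
  ⟨fun _ _ _ _ _ _ _ _ _ _ hK =>
      ⟨hK.hasPoly_prod_iff, hK.hasC1_prod_iff, hK.hasPoly_iff, hK.hasC1_iff⟩,
    fun _ _ _ _ h => h.elim SigmaDiscrete.layered OrdImages.layered,
    fun _ _ _ _ _ _ _ π h h1 h2 => h.image π h1 h2,
    fun _ _ _ _ F h hF => h.closed F hF⟩

end Pool.Agent.Results.MP_7b0956_an.LayeredCompacta
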