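import Pool.Agent.helper26.CR.Gcl

/-!
# MP_7b0956_an: polyhedral and C¹ norms on C(K) and limits of retractive sequences

`Rcl` is the smallest class of compact Hausdorff spaces which contains the metrizable ones and is
closed under limits of continuous transfinite sequences of retractions (the class of Burke, Kubiś
and Todorčević). All Valdivia compact spaces, of arbitrary weight, are in it
(`rcl_of_valdivia`).

`Gcl` is the smallest class of compact Hausdorff spaces which contains the scattered members of
`Rcl`, the scattered continuous images of compact linearly ordered spaces and the scattered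
continuous images, of weight at most `ℵ₁`, of Valdivia compact spaces, and is closed under
continuous images, finite products and layered unions.

If the compact space `K` is Valdivia, or in `Rcl`, or is in `Gcl` in case it is scattered, and `Z`
is any compact space, then `C(K × Z)` has an equivalent polyhedral norm iff `K` is scattered and
`C(Z)` has one, and the same holds for `C¹` norms; in particular, `C(K)` has an equivalent
polyhedral norm iff `K` is scattered iff `C(K)` has an equivalent `C¹` norm.
-/

set_option autoImplicit false

namespace Pool.Agent.Results.MP_7b0956_an.RetractiveClass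

open Pool.Agent.helper26.CK Pool.Agent.helper26.CR Pool.Agent.helper41.RC

theorem result (K Z : Type) [TopologicalSpace K] [CompactSpace K] [T2Space K] [Nonempty K]
    [TopologicalSpace Z] [CompactSpace Z] [T2Space Z] [Nonempty Z]
    (hK : Valdivia K ∨ Rcl K ∨ (Scattered K → Gcl K)) :
    (HasPoly C(K × Z, ℝ) ↔ Scattered K ∧ HasPoly C(Z, ℝ)) ∧
      (HasC1 C(K × Z, ℝ) ↔ Scattered K ∧ HasC1 C(Z, ℝ)) ∧
      (HasPoly C(K, ℝ) ↔ Scattered K) ∧ (HasC1 C(K, ℝ) ↔ Scattered K) := by
  have hG : Scattered K → Gcl K := by
    rcases hK with h | h | h
    · exact fun hs => Gcl.retr K (rcl_of_valdivia h) hs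
    · exact fun hs => Gcl.retr K h hs
    · exact h
  refine ⟨⟨fun h => ?_, fun h => (hG h.1).hasPoly_prod h.2⟩,
    ⟨fun h => ?_, fun h => (hG h.1).hasC1_prod h.2⟩,
    ⟨fun h => ?_, fun h => (hG h).hasPoly⟩, ⟨fun h => ?_, fun h => (hG h).hasC1⟩⟩
  · refine ⟨?_, h.comp (sndIso K Z)⟩
    by_contra hs
    exact not_hasPoly hs (h.comp (fstIso K Z))
  · refine ⟨?_, h.comp (sndIso K Z)⟩
    by_contra hs
    exact not_hasC1 hs (h.comp (fstIso K Z))
  · by_contra hs
    exact not_hasPoly hs h
  · by_contra hs
    exact not_hasC1 hs h

end Pool.Agent.Results.MP_7b0956_an.RetractiveClass
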